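import Pool.Agent.H961C9.Prog

/-!
Primes `p_n` in a given class with the index `n` in a given class, and values of integer-valued
polynomials.
-/

set_option autoImplicit false

namespace Pool.Agent.H961C9

open Finset Filter Polynomial

/-- Integer-valued polynomials are periodic modulo a prime. -/
lemma periodic (P : ℚ[X]) : ∃ D : ℕ, ∀ l : ℕ, l.Prime → ∀ K : ℕ, D ≤ K → ∀ m m' v v' : ℤ,
    ((l : ℤ) ^ K) ∣ m - m' → P.eval (m : ℚ) = v → P.eval (m' : ℚ) = v' → (l : ℤ) ∣ v - v' := by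
  obtain ⟨b, hbm, hb⟩ := IsLocalization.integerNormalization_spec (nonZeroDivisors ℤ) P
  obtain ⟨G, hG⟩ : ∃ G : ℤ[X], G = IsLocalization.integerNormalization (nonZeroDivisors ℤ) P :=
    ⟨_, rfl⟩
  rw [← hG] at hb
  have hb0 : (b : ℤ) ≠ 0 := nonZeroDivisors.ne_zero hbm
  have hev : ∀ m v : ℤ, P.eval (m : ℚ) = v → G.eval m = (b : ℤ) * v := by
    intro m v h
    have h1 : (G.map (algebraMap ℤ ℚ)).eval (m : ℚ) = ((G.eval m : ℤ) : ℚ) := by
      have := Polynomial.eval_map_algebraMap (R := ℤ) (B := ℚ) G (m : ℚ)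
      rw [this]
      have h2 := Polynomial.aeval_algebraMap_apply ℚ m G
      simpa using h2
    rw [hb] at h1
    have h3 : (((b : ℤ) : ℚ)) * P.eval (m : ℚ) = ((G.eval m : ℤ) : ℚ) := by
      rw [← h1]
      simp
    rw [h] at h3
    have h4 : (((b : ℤ) * v : ℤ) : ℚ) = ((G.eval m : ℤ) : ℚ) := by
      push_cast
      exact h3
    exact_mod_cast h4.symm
  refine ⟨(b : ℤ).natAbs, fun l hl K hK m m' v v' hd hv hv' => ?_⟩
  have h1 : ((l : ℤ) ^ K) ∣ (b : ℤ) * (v - v') := by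
    have h2 := hd.trans (Polynomial.sub_dvd_eval_sub m m' G)
    rw [hev m v hv, hev m' v' hv', ← mul_sub] at h2
    exact h2
  by_contra hcon
  have h3 : IsCoprime ((l : ℤ) ^ K) (v - v') := by
    apply IsCoprime.pow_left
    exact (Prime.coprime_iff_not_dvd (Nat.prime_iff_prime_int.1 hl)).2 hcon
  have h4 : ((l : ℤ) ^ K) ∣ (b : ℤ) := h3.dvd_of_dvd_mul_right h1
  have h5 : l ^ K ∣ (b : ℤ).natAbs := by
    have := Int.natAbs_dvd_natAbs.2 h4
    rwa [Int.natAbs_pow, Int.natAbs_natCast] at this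
  have h6 := Nat.le_of_dvd (Int.natAbs_pos.2 hb0) h5
  have h7 : K < l ^ K := Nat.lt_pow_self hl.one_lt
  omega

/-- a common residue -/
lemma crt (t : Finset ℕ) (ht : ∀ l ∈ t, l.Prime) (K : ℕ) (f : ℕ → ℤ) :
    ∃ k : ℕ, ∀ l ∈ t, ((l : ℤ) ^ K) ∣ (k : ℤ) - f l := by
  classical
  have hs : ∀ l ∈ t, l ^ K ≠ 0 := fun l hl => pow_ne_zero _ (ht l hl).ne_zero
  obtain ⟨k, hk⟩ := Nat.chineseRemainderOfFinset (fun l => (f l % ((l : ℤ) ^ K)).toNat)
    (fun l => l ^ K) t hs (by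
      intro a ha b hb hab
      exact Nat.Coprime.pow _ _ ((Nat.coprime_primes (ht a ha) (ht b hb)).2 hab))
  refine ⟨k, fun l hl => ?_⟩
  have h1 := (Nat.modEq_iff_dvd.1 (hk l hl).symm)
  have h2 : (0 : ℤ) ≤ f l % ((l : ℤ) ^ K) :=
    Int.emod_nonneg _ (pow_ne_zero _ (by exact_mod_cast (ht l hl).ne_zero))
  rw [Int.toNat_of_nonneg h2] at h1
  push_cast at h1
  have h3 : ((l : ℤ) ^ K) ∣ f l % ((l : ℤ) ^ K) - f l := by
    have h4 := Int.emod_add_mul_ediv (f l) ((l : ℤ) ^ K)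
    refine ⟨-(f l / ((l : ℤ) ^ K)), ?_⟩
    linarith
  have h5 := dvd_add h1 h3
  have h6 : (k : ℤ) - f l % ((l : ℤ) ^ K) + (f l % ((l : ℤ) ^ K) - f l) = (k : ℤ) - f l := by ring
  rwa [h6] at h5

/-- the index and the primes in given classes, along narrow progressions -/
theorem joint (q e u c r : ℕ) (hq : Squarefree q) (he : ∀ l : ℕ, l.Prime → l ∣ q → ¬ l ∣ e)
    (hu : 1 ≤ u) (L : ℕ) : ∃ B : ℕ, ∀ᶠ N : ℕ in atTop, ∃ (a d : ℕ) (g : ℕ → ℕ), 1 ≤ d ∧
      (d : ℝ) ≤ Real.log N ^ B ∧ g 0 = 0 ∧ ∀ t < L, N < a + t * d ∧ a + t * d + g r ≤ 2 * N ∧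
        ∃ n : ℕ, 1 ≤ n ∧ n ≡ c [MOD u] ∧ ∀ i ≤ r,
          Nat.nth Nat.Prime (n + i - 1) = a + t * d + g i ∧ a + t * d + g i ≡ e [MOD q] := by
  obtain ⟨C, R, δ, hδ, h⟩ := index_prog (1 : ℤ[X]) (fun n _ => by simp)
    (fun p hp => ⟨1, by
      simp only [eval_one, mul_one]
      intro hd
      have h2 := Int.le_of_dvd one_pos hd
      have h3 := hp.two_le
      omega⟩) q e hq (fun p hp hpq => by
        simp only [eval_one, mul_one]
        intro hd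
        exact he p hp hpq (by exact_mod_cast hd)) u r hu
  obtain ⟨B, hB⟩ := h L
  refine ⟨B, ?_⟩
  filter_upwards [hB] with N hN
  obtain ⟨a, d, g, h1, h2, h3, h4, h5⟩ := hN (c + u - 1)
  refine ⟨a, d, g, h1, h2, h3, fun t ht => ?_⟩
  obtain ⟨h6, h7, j, hj, h8⟩ := h5 t ht
  refine ⟨h6, h7, j + 1, by omega, ?_, ?_⟩
  · have e1 := hj.add_right 1
    have e2 : c + u - 1 + 1 = c + u := by omega
    rw [e2] at e1
    exact e1.trans (by
      show (c + u) % u = c % u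
      rw [Nat.add_mod_right])
  · intro i hi
    obtain ⟨g1, g2, -⟩ := h8 i hi
    have e1 : j + 1 + i - 1 = j + i := by omega
    rw [e1]
    exact ⟨g1, g2⟩

/-- **No local obstruction.** -/
theorem family {s : ℕ} (P : Fin s → ℚ[X]) (hP : ∀ i (m : ℤ), ∃ v : ℤ, (P i).eval (m : ℚ) = v)
    (b : Fin s → ℕ) (u c : ℕ) (hu : 1 ≤ u) (w z : ℕ)
    (hloc : ∀ l : ℕ, l.Prime → w < l → ∃ x y : ℤ, (u : ℤ) ∣ y - c ∧ ¬ (l : ℤ) ∣ x ∧
      ∀ i, ∀ v : ℤ, (P i).eval (y : ℚ) = v → ¬ (l : ℤ) ∣ x + 2 * v) (L : ℕ) :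
    ∃ B : ℕ, ∀ᶠ N : ℕ in atTop, ∃ a d : ℕ, 1 ≤ d ∧ (d : ℝ) ≤ Real.log N ^ B ∧
      ∀ t < L, N < a + t * d ∧ a + t * d ≤ 2 * N ∧ ∃ n : ℕ, 1 ≤ n ∧ n ≡ c [MOD u] ∧
        Nat.nth Nat.Prime (n - 1) = a + t * d ∧
        ∀ i, ∃ v : ℤ, (P i).eval (n : ℚ) = v ∧
          ∀ l : ℕ, l.Prime → w < l → l ≤ z →
            ¬ (l : ℤ) ∣ ((Nat.nth Nat.Prime (n + b i - 1) : ℕ) : ℤ) + 2 * v := by
  classical
  choose D hD using fun i => periodic (P i)
  obtain ⟨r, hr⟩ : ∃ r, r = ∑ i, b i := ⟨_, rfl⟩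
  have hbr : ∀ i, b i ≤ r := fun i => by
    have := single_le_sum (f := b) (fun i _ => Nat.zero_le _) (mem_univ i)
    omega
  obtain ⟨K, hK⟩ : ∃ K, K = ∑ i, D i + u + 1 := ⟨_, rfl⟩
  have hKD : ∀ i, D i ≤ K := fun i => by
    have := single_le_sum (f := D) (fun i _ => Nat.zero_le _) (mem_univ i)
    omega
  obtain ⟨T, hT⟩ : ∃ T : Finset ℕ, T = (range (z + u + 1)).filter Nat.Prime := ⟨_, rfl⟩
  have hTp : ∀ l ∈ T, l.Prime := fun l hl => by
    rw [hT] at hl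
    exact (mem_filter.1 hl).2
  have hTm : ∀ l : ℕ, l.Prime → l ≤ z + u → l ∈ T := fun l hl h => by
    rw [hT, mem_filter, mem_range]
    exact ⟨by omega, hl⟩
  have hloc' : ∀ l : ℕ, l.Prime → ∃ x y : ℤ, (u : ℤ) ∣ y - c ∧ ¬ (l : ℤ) ∣ x ∧
      (w < l → ∀ i, ∀ v : ℤ, (P i).eval (y : ℚ) = v → ¬ (l : ℤ) ∣ x + 2 * v) := by
    intro l hl
    by_cases hw : w < l
    · obtain ⟨x, y, h1, h2, h3⟩ := hloc l hl hw
      exact ⟨x, y, h1, h2, fun _ => h3⟩
    · refine ⟨1, c, by simp, ?_, fun h => absurd h hw⟩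
      intro h3
      have h4 := Int.le_of_dvd one_pos h3
      have := hl.two_le
      omega
  choose! x y hy hx hxy using hloc'
  obtain ⟨c', hc'⟩ := crt T hTp K y
  obtain ⟨e, he⟩ := crt T hTp 1 x
  obtain ⟨q, hq⟩ : ∃ q, q = ∏ l ∈ T, l := ⟨_, rfl⟩
  obtain ⟨u', hu'⟩ : ∃ u', u' = ∏ l ∈ T, l ^ K := ⟨_, rfl⟩
  have hqs : Squarefree q := by
    rw [hq]
    apply Finset.squarefree_prod_of_pairwise_isCoprime
    · intro p hp r hr hpr
      exact Nat.coprime_iff_isRelPrime.1 ((Nat.coprime_primes (hTp p hp) (hTp r hr)).2 hpr)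
    · intro p hp
      exact (hTp p hp).squarefree
  have hu'1 : 1 ≤ u' := by
    rw [hu']
    exact Finset.prod_pos fun l hl => pow_pos (hTp l hl).pos _
  have hlq : ∀ l ∈ T, l ∣ q := fun l hl => by
    rw [hq]
    exact dvd_prod_of_mem _ hl
  have hlu : ∀ l ∈ T, l ^ K ∣ u' := fun l hl => by
    rw [hu']
    exact dvd_prod_of_mem (fun l => l ^ K) hl
  obtain ⟨B, hB⟩ := joint q e u' c' r hqs (fun l hl hlq' hle => by
    have h1 : l ∈ T := by
      rw [hq] at hlq'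
      obtain ⟨r, hr, h2⟩ := (Prime.dvd_finsetProd_iff hl.prime _).1 hlq'
      have h3 := (Nat.prime_dvd_prime_iff_eq hl (hTp r hr)).1 h2
      rw [h3]
      exact hr
    have h2 := he l h1
    rw [pow_one] at h2
    apply hx l hl
    have h3 : (l : ℤ) ∣ (e : ℤ) := by exact_mod_cast hle
    have h4 := dvd_sub h3 h2
    have h5 : (e : ℤ) - ((e : ℤ) - x l) = x l := by ring
    rwa [h5] at h4) hu'1 L
  refine ⟨B, ?_⟩
  filter_upwards [hB] with N hN
  obtain ⟨a, d, g, h1, h2, hg0, h3⟩ := hN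
  refine ⟨a, d, h1, h2, fun t ht => ?_⟩
  obtain ⟨h4, h5, n, h7, h8, h9⟩ := h3 t ht
  have hny : ∀ l ∈ T, ((l : ℤ) ^ K) ∣ (n : ℤ) - y l := by
    intro l hl
    have e1 : ((l ^ K : ℕ) : ℤ) ∣ (n : ℤ) - c' :=
      Nat.modEq_iff_dvd.1 ((h8.of_dvd (hlu l hl)).symm)
    have e2 := dvd_add (by push_cast at e1; exact e1) (hc' l hl)
    have e3 : (n : ℤ) - c' + ((c' : ℤ) - y l) = (n : ℤ) - y l := by ring
    rwa [e3] at e2
  refine ⟨h4, by omega, n, h7, ?_, ?_, ?_⟩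
  · -- the class modulo `u`
    have e1 : (u : ℤ) ∣ (n : ℤ) - c := by
      rw [← Int.natAbs_dvd_natAbs, Int.natAbs_natCast, Nat.dvd_iff_prime_pow_dvd_dvd]
      intro l k hl hlk
      rcases Nat.eq_zero_or_pos k with h0 | h0
      · rw [h0, pow_zero]
        exact one_dvd _
      · have f1 : l ∣ u := (dvd_pow_self l h0.ne').trans hlk
        have f2 : l ≤ u := Nat.le_of_dvd hu f1
        have f3 : l ∈ T := hTm l hl (by omega)
        have f4 : k ≤ K := by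
          have f5 := Nat.le_of_dvd hu hlk
          have f6 : k < l ^ k := Nat.lt_pow_self hl.one_lt
          omega
        have f7 : ((l : ℤ) ^ k) ∣ (n : ℤ) - y l := (pow_dvd_pow _ f4).trans (hny l f3)
        have f8 : ((l : ℤ) ^ k) ∣ y l - c := by
          have : ((l ^ k : ℕ) : ℤ) ∣ (u : ℤ) := by exact_mod_cast hlk
          push_cast at this
          exact this.trans (hy l hl)
        have f9 := dvd_add f7 f8
        have f10 : (n : ℤ) - y l + (y l - c) = (n : ℤ) - c := by ring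
        rw [f10] at f9
        have f11 := Int.natAbs_dvd_natAbs.2 f9
        rwa [Int.natAbs_pow, Int.natAbs_natCast] at f11
    exact (Nat.modEq_iff_dvd.2 e1).symm
  · have e1 := (h9 0 (Nat.zero_le _)).1
    rw [hg0, add_zero, add_zero] at e1
    exact e1
  · intro i
    obtain ⟨v, hv⟩ := hP i (n : ℤ)
    refine ⟨v, by exact_mod_cast hv, fun l hl hlw hlz hd => ?_⟩
    have hlT : l ∈ T := hTm l hl (by omega)
    obtain ⟨v', hv'⟩ := hP i (y l)
    have e1 := hD i l hl K (hKD i) n (y l) v v' (hny l hlT) hv hv'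
    obtain ⟨f1, f2⟩ := h9 (b i) (hbr i)
    rw [f1] at hd
    have e2 : (l : ℤ) ∣ ((a + t * d + g (b i) : ℕ) : ℤ) - e :=
      Nat.modEq_iff_dvd.1 ((f2.of_dvd (hlq l hlT)).symm)
    have e3 := he l hlT
    rw [pow_one] at e3
    apply hxy l hl hlw i v' hv'
    have e4 := dvd_sub hd (dvd_add (dvd_add e2 e3) (e1.mul_left 2))
    have e5 : ((a + t * d + g (b i) : ℕ) : ℤ) + 2 * v -
        ((((a + t * d + g (b i) : ℕ) : ℤ) - e) + ((e : ℤ) - x l) + 2 * (v - v')) =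
          x l + 2 * v' := by ring
    rwa [e5] at e4

/-- avoiding few classes modulo a large prime -/
lemma avoid (r l : ℕ) (hl : r + 2 < l) (v : Fin (r + 1) → ℤ) :
    ∃ x : ℤ, ¬ (l : ℤ) ∣ x ∧ ∀ i, ¬ (l : ℤ) ∣ x + 2 * v i := by
  classical
  have hl0 : (0 : ℤ) < l := by
    have : 0 < l := by omega
    exact_mod_cast this
  obtain ⟨E, hE⟩ : ∃ E : Finset ℕ, E = (univ : Finset (Fin (r + 1))).image
    (fun i => ((-(2 * v i)) % (l : ℤ)).toNat) := ⟨_, rfl⟩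
  have hEc : E.card < (Icc 1 (l - 1)).card := by
    have h1 : E.card ≤ r + 1 := by
      rw [hE]
      exact card_image_le.trans (by rw [card_univ, Fintype.card_fin])
    rw [Nat.card_Icc]
    omega
  obtain ⟨x, hx, hxE⟩ := Finset.exists_mem_notMem_of_card_lt_card hEc
  rw [mem_Icc] at hx
  refine ⟨x, ?_, fun i hd => ?_⟩
  · intro hd
    have h1 : l ∣ x := by exact_mod_cast hd
    have h2 := Nat.le_of_dvd (by omega) h1
    omega
  · apply hxE
    rw [hE, mem_image]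
    refine ⟨i, mem_univ _, ?_⟩
    have h1 : (-(2 * v i)) % (l : ℤ) = (x : ℤ) % (l : ℤ) := by
      apply Int.emod_eq_emod_iff_emod_sub_eq_zero.2
      have h3 : -(2 * v i) - (x : ℤ) = -((x : ℤ) + 2 * v i) := by ring
      rw [h3]
      exact Int.emod_eq_zero_of_dvd ((dvd_neg).2 hd)
    have h2 : (x : ℤ) % (l : ℤ) = x := Int.emod_eq_of_lt (by positivity) (by
      have : x < l := by omega
      exact_mod_cast this)
    rw [h1, h2, Int.toNat_natCast]

/-- a single polynomial satisfies the local condition -/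
lemma loc_single (P : ℚ[X]) (c : ℕ) (l : ℕ) (hl : l.Prime) (v₀ : ℤ)
    (hv₀ : P.eval ((c : ℤ) : ℚ) = v₀) : ∃ x : ℤ, ¬ (l : ℤ) ∣ x ∧
      ∀ v : ℤ, P.eval ((c : ℤ) : ℚ) = v → ¬ (l : ℤ) ∣ x + 2 * v := by
  have huniq : ∀ v : ℤ, P.eval ((c : ℤ) : ℚ) = v → v = v₀ := by
    intro v hv
    rw [hv₀] at hv
    exact_mod_cast hv.symm
  by_cases h1 : (l : ℤ) ∣ 1 + 2 * v₀
  · refine ⟨2, ?_, fun v hv => ?_⟩
    · intro h2
      have h3 : (l : ℤ) ∣ 1 := by
        have h4 := dvd_sub h1 (h2.mul_right v₀)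
        have h5 : 1 + 2 * v₀ - 2 * v₀ = 1 := by ring
        rwa [h5] at h4
      have h4 := Int.le_of_dvd one_pos h3
      have := hl.two_le
      omega
    · rw [huniq v hv]
      intro h2
      have h3 : (l : ℤ) ∣ 1 := by
        have h4 := dvd_sub h2 h1
        have h5 : 2 + 2 * v₀ - (1 + 2 * v₀) = 1 := by ring
        rwa [h5] at h4
      have h4 := Int.le_of_dvd one_pos h3
      have := hl.two_le
      omega
  · refine ⟨1, ?_, fun v hv => ?_⟩
    · intro h3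
      have h4 := Int.le_of_dvd one_pos h3
      have := hl.two_le
      omega
    · rw [huniq v hv]
      exact h1

end Pool.Agent.H961C9
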