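import Pool.Agent.R498.MP.StrC

/-!
Narrow progressions of runs of consecutive primes with prescribed index class.
-/

set_option autoImplicit false

namespace Pool.Agent.H961C9

open Finset Filter Polynomial
open Pool.Agent.R498.MP (AP stringsCR)

/-- the finite form of van der Waerden's theorem -/
lemma vdw (L u : ℕ) : ∃ M : ℕ, ∀ col : ℕ → ℕ, (∀ x, col x < u) →
    ∃ b a : ℕ, 1 ≤ a ∧ a ≤ M ∧ (∀ t < L, b + t * a ≤ M) ∧ ∃ c, ∀ t < L, col (b + t * a) = c := by
  classical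
  obtain ⟨ι, hι, h⟩ := Combinatorics.Line.exists_mono_in_high_dimension (Fin L) (Fin u)
  refine ⟨Fintype.card ι * (L + 1), fun col hcol => ?_⟩
  obtain ⟨l, c, hl⟩ := h (fun v => ⟨col (∑ i, (v i : ℕ)), hcol _⟩)
  obtain ⟨a, ha⟩ : ∃ a, a = (univ.filter (fun i => l.idxFun i = none)).card := ⟨_, rfl⟩
  obtain ⟨b, hb⟩ : ∃ b, b = ∑ i, ((l.idxFun i).map (fun x : Fin L => (x : ℕ))).getD 0 := ⟨_, rfl⟩
  have hsum : ∀ t : Fin L, ∑ i, ((l t) i : ℕ) = b + t * a := by
    intro t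
    rw [hb, ha, card_filter, mul_sum, ← sum_add_distrib]
    apply sum_congr rfl
    intro i _
    rcases hi : l.idxFun i with _ | y
    · rw [Combinatorics.Line.apply_none l t i hi]
      simp
    · rw [Combinatorics.Line.apply_some hi]
      simp
  have hcard : a ≤ Fintype.card ι := by
    rw [ha]
    exact (card_filter_le _ _).trans (le_of_eq (by rw [card_univ]))
  have hle : ∀ t : Fin L, b + t * a ≤ Fintype.card ι * (L + 1) := by
    intro t
    rw [← hsum t]
    calc ∑ i, ((l t) i : ℕ) ≤ ∑ _i : ι, (L + 1) := by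
          apply sum_le_sum
          intro i _
          have := ((l t) i).2
          omega
      _ = Fintype.card ι * (L + 1) := by rw [sum_const, card_univ, smul_eq_mul]
  refine ⟨b, a, ?_, ?_, fun t ht => hle ⟨t, ht⟩, (c : ℕ), ?_⟩
  · rw [ha, Nat.succ_le_iff, card_pos]
    obtain ⟨i, hi⟩ := l.proper
    exact ⟨i, mem_filter.2 ⟨mem_univ _, hi⟩⟩
  · have : Fintype.card ι * 1 ≤ Fintype.card ι * (L + 1) := Nat.mul_le_mul_left _ (by omega)
    omega
  · intro t ht
    have h1 := hl ⟨t, ht⟩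
    have h2 := congrArg Fin.val h1
    simp only at h2
    rw [hsum ⟨t, ht⟩] at h2
    exact h2

/-- the primes in a window, by index -/
lemma nth_window (n C : ℕ) (H : Finset ℕ) (hH : ∀ h ∈ H, h ≤ C)
    (hw : ∀ y ≤ C, (n + y).Prime ↔ y ∈ H) (s : ℕ) (hs : s < H.card) :
    Nat.nth (· ∈ H) s ∈ H ∧
      Nat.nth Nat.Prime (Nat.count Nat.Prime n + s) = n + Nat.nth (· ∈ H) s := by
  classical
  have hfin : (Set.ofPred (fun x => x ∈ H)).Finite := H.finite_toSet
  have hcard : hfin.toFinset.card = H.card := by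
    congr 1
    ext y
    rw [Set.Finite.mem_toFinset]
    exact Iff.rfl
  have hmem : Nat.nth (· ∈ H) s ∈ H := Nat.nth_mem_of_lt_card hfin (by rw [hcard]; exact hs)
  have hcnt : Nat.count (· ∈ H) (Nat.nth (· ∈ H) s) = s := Nat.count_nth (fun hf => by
    have : hf.toFinset.card = H.card := hcard
    rw [this]
    exact hs)
  refine ⟨hmem, ?_⟩
  obtain ⟨h, hh⟩ : ∃ h, h = Nat.nth (· ∈ H) s := ⟨_, rfl⟩
  rw [← hh] at hmem hcnt ⊢
  have hhC := hH h hmem
  have hp : (n + h).Prime := (hw h hhC).2 hmem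
  have hc : Nat.count Nat.Prime (n + h) = Nat.count Nat.Prime n + s := by
    rw [Nat.count_add]
    congr 1
    rw [← hcnt, Nat.count_eq_card_filter_range, Nat.count_eq_card_filter_range]
    congr 1
    ext y
    rw [mem_filter, mem_filter, mem_range]
    constructor
    · rintro ⟨h1, h2⟩
      exact ⟨h1, (hw y (by omega)).1 h2⟩
    · rintro ⟨h1, h2⟩
      exact ⟨h1, (hw y (by omega)).2 h2⟩
  rw [← hc, Nat.nth_count hp]

/-- Narrow progressions of any length whose terms are primes with index in a given class, followed by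
consecutive primes in the same pattern, `f` being almost prime at all these primes. -/
theorem index_prog (f : ℤ[X]) (hz : ∀ n : ℤ, n ≠ 0 → f.eval n ≠ 0)
    (hadm : ∀ p : ℕ, p.Prime → ∃ n : ℤ, ¬ (p : ℤ) ∣ n * f.eval n)
    (q e : ℕ) (hq : Squarefree q)
    (he : ∀ p : ℕ, p.Prime → p ∣ q → ¬ (p : ℤ) ∣ (e : ℤ) * f.eval (e : ℤ))
    (u r : ℕ) (hu : 1 ≤ u) :
    ∃ (C R : ℕ) (δ : ℝ), 0 < δ ∧ ∀ L : ℕ, ∃ B : ℕ, ∀ᶠ N : ℕ in atTop, ∀ c : ℕ,
      ∃ (a d : ℕ) (g : ℕ → ℕ), 1 ≤ d ∧ (d : ℝ) ≤ Real.log N ^ B ∧ g 0 = 0 ∧ g r ≤ C ∧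
        ∀ t < L, N < a + t * d ∧ a + t * d + g r ≤ 2 * N ∧ ∃ j : ℕ, j ≡ c [MOD u] ∧
          ∀ i ≤ r, Nat.nth Nat.Prime (j + i) = a + t * d + g i ∧
            a + t * d + g i ≡ e [MOD q] ∧
            AP R ((N : ℝ) ^ δ) (f.eval ((a + t * d + g i : ℕ) : ℤ)) := by
  classical
  obtain ⟨K, R, δ, hδ, hmain⟩ := stringsCR f hz hadm q e hq he (u + r)
  obtain ⟨C, hC⟩ : ∃ C, C = (Finset.range K).sup id := ⟨_, rfl⟩
  refine ⟨C, R, δ, hδ, fun L => ?_⟩
  obtain ⟨M, hM⟩ := vdw (L + 1) u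
  obtain ⟨B, hB⟩ := hmain (Finset.range K) (by rw [card_range]) (M + 1)
  have hlogt : Tendsto (fun X : ℕ => Real.log (X : ℝ)) atTop atTop :=
    Real.tendsto_log_atTop.comp tendsto_natCast_atTop_atTop
  refine ⟨B + 1, ?_⟩
  filter_upwards [hB, hlogt.eventually_ge_atTop (M : ℝ)] with N hN hNM
  intro c
  obtain ⟨H, hH, hHm, n, d, h3, h4, h5⟩ := hN
  rw [← hC] at h5
  have hHC : ∀ h ∈ H, h ≤ C := fun h hh => by
    rw [hC]
    exact Finset.le_sup (f := id) (hH hh)
  obtain ⟨b, a, ha1, ha2, hab, ρ, hρ⟩ := hM (fun j => Nat.count Nat.Prime (n + j * d) % u)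
    (fun x => Nat.mod_lt _ hu)
  have hρu : ρ < u := by
    rw [← hρ 0 (by omega)]
    exact Nat.mod_lt _ hu
  obtain ⟨s, hs⟩ : ∃ s, s = (c + (u - ρ)) % u := ⟨_, rfl⟩
  have hsu : s < u := by
    rw [hs]
    exact Nat.mod_lt _ hu
  obtain ⟨w, hw⟩ : ∃ w : ℕ → ℕ, w = fun i => Nat.nth (· ∈ H) (s + i) := ⟨_, rfl⟩
  have hpos : ∀ t < L + 1, ∀ i ≤ r, w i ∈ H ∧
      Nat.nth Nat.Prime (Nat.count Nat.Prime (n + (b + t * a) * d) + (s + i)) =
        n + (b + t * a) * d + w i := by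
    intro t ht i hi
    rw [hw]
    obtain ⟨-, -, g1, -⟩ := h5 (b + t * a) (by have := hab t ht; omega)
    exact nth_window (n + (b + t * a) * d) C H hHC g1 (s + i) (by omega)
  have hmono : ∀ i i', i ≤ i' → i' ≤ r → w i ≤ w i' := by
    intro i i' hii hi'
    have e1 := (hpos 0 (by omega) i (by omega)).2
    have e2 := (hpos 0 (by omega) i' hi').2
    have e3 : Nat.nth Nat.Prime (Nat.count Nat.Prime (n + (b + 0 * a) * d) + (s + i)) ≤
        Nat.nth Nat.Prime (Nat.count Nat.Prime (n + (b + 0 * a) * d) + (s + i')) :=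
      Nat.nth_monotone Nat.infinite_setOfPred_prime (by omega)
    rw [e1, e2] at e3
    omega
  refine ⟨n + b * d + w 0, a * d, fun i => w i - w 0, Nat.mul_pos ha1 h3, ?_, by simp, ?_, ?_⟩
  · push_cast
    rw [pow_succ']
    have h0 : (0 : ℝ) ≤ d := Nat.cast_nonneg d
    have h1 : (a : ℝ) ≤ Real.log N := by
      have : (a : ℝ) ≤ M := by exact_mod_cast ha2
      linarith
    exact mul_le_mul h1 h4 h0 (le_trans (Nat.cast_nonneg a) h1)
  · have := hHC _ (hpos 0 (by omega) r le_rfl).1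
    show w r - w 0 ≤ C
    omega
  · intro t ht
    have e5 : n + b * d + w 0 + t * (a * d) = n + (b + t * a) * d + w 0 := by ring
    obtain ⟨g0, g1, g2, g3⟩ := h5 (b + t * a) (by have := hab t (by omega); omega)
    have hr1 := hHC _ (hpos t (by omega) r le_rfl).1
    have hr2 := hmono 0 r (Nat.zero_le _) le_rfl
    refine ⟨by omega, ?_, Nat.count Nat.Prime (n + (b + t * a) * d) + s, ?_, ?_⟩
    · show n + b * d + w 0 + t * (a * d) + (w r - w 0) ≤ 2 * N
      rw [e5]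
      omega
    · have e6 : Nat.count Nat.Prime (n + (b + t * a) * d) % u = ρ := hρ t (by omega)
      have e7 : Nat.count Nat.Prime (n + (b + t * a) * d) ≡ ρ [MOD u] := by
        show _ % u = ρ % u
        rw [e6, Nat.mod_eq_of_lt hρu]
      have e8 : s ≡ c + (u - ρ) [MOD u] := by
        rw [hs]
        exact Nat.mod_modEq _ _
      have e9 := e7.add e8
      have e10 : ρ + (c + (u - ρ)) = c + u := by omega
      rw [e10] at e9
      exact e9.trans (by
        show (c + u) % u = c % u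
        rw [Nat.add_mod_right])
    · intro i hi
      obtain ⟨e1, e2⟩ := hpos t (by omega) i hi
      have e3 := hmono 0 i (Nat.zero_le _) hi
      have e4 : n + b * d + w 0 + t * (a * d) + (w i - w 0) = n + (b + t * a) * d + w i := by
        rw [e5]
        omega
      show Nat.nth Nat.Prime (Nat.count Nat.Prime (n + (b + t * a) * d) + s + i) =
        n + b * d + w 0 + t * (a * d) + (w i - w 0) ∧
        n + b * d + w 0 + t * (a * d) + (w i - w 0) ≡ e [MOD q] ∧ _
      rw [e4]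
      refine ⟨?_, (g3 _ e1).1, (g3 _ e1).2⟩
      rw [← e2, add_assoc]

end Pool.Agent.H961C9
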